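import Pool.Agent.Y546.WQ.Stm3
import Pool.Agent.Y815.WQ.LAMG

set_option autoImplicit false

/-!
# Project WH: the Stickelberger relations belonging to `a` modulo `p` for the value of a polynomial
(adapted from the case `a = 1`, Pool.Agent.Y815.WQ.LAMG)
-/

namespace Pool.Agent.Y919.WQ

open NumberField IsDedekindDomain Polynomial Pool.Agent.Y546.WQ Pool.Agent.Y447.WQ
open Pool.Agent.Y815.WQ

section

variable {p : ℕ} [Fact p.Prime] {C : Type} [Field C] [NumberField C]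

theorem tha_eq (aa : ℕ) (c : Cyc p C) (f : ℤ[X]) {n : ℤ} (hn : n ≠ 0) :
    tha c aa (aeval c.z f / (n : C)) * (n : C) ^ (hf p aa).card =
      ((∏ t ∈ hf p aa, aeval (zz c ^ ex t) f : 𝓞 C) : C) := by
  have hn' : (n : C) ≠ 0 := by exact_mod_cast hn
  unfold tha
  have h1 : ∀ t ∈ hf p aa, c.σ t⁻¹ (aeval c.z f / (n : C)) =
      algebraMap (𝓞 C) C (aeval (zz c ^ ex t) f) / n := by
    intro t ht
    rw [map_div₀, map_intCast]
    congr 1
    have h2 := map_aevZ ((c.σ t⁻¹ : C ≃ₐ[ℚ] C) : C →+* C) c.z f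
    have h3 : ((c.σ t⁻¹ : C ≃ₐ[ℚ] C) : C →+* C) c.z = c.z ^ ex t := c.σ_z t⁻¹
    rw [h3] at h2
    rw [map_aevZ, map_pow]
    exact h2
  rw [Finset.prod_congr rfl h1, Finset.prod_div_distrib, Finset.prod_const,
    div_mul_cancel₀ _ (pow_ne_zero _ hn')]
  exact (map_prod (algebraMap (𝓞 C) C) _ _).symm

end

theorem mainLAMA : S_LAMA := by
  intro p _ hp2 aa _ _ C _ _ c f n hn hu g hg i hrel
  have hn0 : n ≠ 0 := by
    rintro rfl
    exact hn (dvd_zero _)
  have hpz : Prime (p : ℤ) := Nat.prime_iff_prime_int.1 (Fact.out : p.Prime)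
  have h1 := tha_eq aa c f hn0
  rw [hrel] at h1
  set q : 𝓞 C := ∏ t ∈ hf p aa, aeval (zz c ^ ex t) f with hq
  set h := (hf p aa).card with hh
  -- the relation for integers
  have h2 : ∃ A B : 𝓞 C, (¬ lm c ∣ A ∨ ¬ lm c ∣ B) ∧
      q * B ^ p = (n : 𝓞 C) ^ h * zz c ^ i * A ^ p := by
    obtain ⟨m, d, hmd⟩ := (pl hp2 c).exists_primeCompl_mul_eq_or_mul_eq g
    have hd : ¬ lm c ∣ (d : 𝓞 C) := by
      intro hcon
      exact d.2 (Ideal.mem_span_singleton.2 hcon)
    rcases hmd with hmd | hmd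
    · refine ⟨m, d, Or.inr hd, ?_⟩
      apply FaithfulSMul.algebraMap_injective (𝓞 C) C
      rw [map_mul, map_mul, map_mul, map_pow, map_pow, map_pow, map_pow, map_intCast, ← hmd]
      show (q : C) * _ = (n : C) ^ h * c.z ^ i * _
      rw [← h1]
      ring
    · refine ⟨d, m, Or.inl hd, ?_⟩
      apply FaithfulSMul.algebraMap_injective (𝓞 C) C
      rw [map_mul, map_mul, map_mul, map_pow, map_pow, map_pow, map_pow, map_intCast, ← hmd]
      show (q : C) * _ = (n : C) ^ h * c.z ^ i * _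
      rw [← h1]
      ring
  obtain ⟨A, B, hAB, h3⟩ := h2
  obtain ⟨a, ha1, ha2⟩ := pow_form hp2 c A
  obtain ⟨b, hb1, hb2⟩ := pow_form hp2 c B
  have hlp := lm_dvd_p hp2 c
  have hz1 : lm c ∣ zz c - 1 := ⟨-1, by unfold lm; ring⟩
  have hzk : ∀ k : ℕ, lm c ∣ zz c ^ k - 1 := fun k => hz1.trans (by
    have := sub_dvd_pow_sub_pow (zz c) 1 k
    rwa [one_pow] at this)
  have hq1 : lm c ∣ q - ((f.eval 1 : ℤ) : 𝓞 C) ^ h := by
    rw [hq, hh, ← Finset.prod_const]
    have key : ∀ T : Finset (ZMod p)ˣ, lm c ∣ ∏ t ∈ T, aeval (zz c ^ ex t) f -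
        ∏ t ∈ T, ((f.eval 1 : ℤ) : 𝓞 C) := by
      intro T
      classical
      induction T using Finset.induction_on with
      | empty => simp
      | insert t T ht ih =>
        rw [Finset.prod_insert ht, Finset.prod_insert ht]
        have h4 : lm c ∣ aeval (zz c ^ ex t) f - ((f.eval 1 : ℤ) : 𝓞 C) := by
          rw [← aev_one]
          exact aev_congr f (hzk (ex t))
        have e : aeval (zz c ^ ex t) f * ∏ t ∈ T, aeval (zz c ^ ex t) f -
            ((f.eval 1 : ℤ) : 𝓞 C) * ∏ t ∈ T, ((f.eval 1 : ℤ) : 𝓞 C) =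
            (aeval (zz c ^ ex t) f - ((f.eval 1 : ℤ) : 𝓞 C)) * ∏ t ∈ T, aeval (zz c ^ ex t) f +
            ((f.eval 1 : ℤ) : 𝓞 C) * (∏ t ∈ T, aeval (zz c ^ ex t) f -
              ∏ t ∈ T, ((f.eval 1 : ℤ) : 𝓞 C)) := by ring
        rw [e]
        exact dvd_add (Dvd.dvd.mul_right h4 _) (Dvd.dvd.mul_left ih _)
    exact key _
  -- the relation modulo `1 - z`
  have h5 : (p : ℤ) ∣ f.eval 1 ^ h * b - n ^ h * a := by
    apply lm_dvd_int c
    push_cast
    have e : ((f.eval 1 : ℤ) : 𝓞 C) ^ h * (b : 𝓞 C) - (n : 𝓞 C) ^ h * (a : 𝓞 C) =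
        -((q - ((f.eval 1 : ℤ) : 𝓞 C) ^ h) * B ^ p) -
        ((f.eval 1 : ℤ) : 𝓞 C) ^ h * (B ^ p - (b : 𝓞 C)) +
        (n : 𝓞 C) ^ h * (A ^ p - (a : 𝓞 C)) +
        (n : 𝓞 C) ^ h * (zz c ^ i - 1) * A ^ p := by
      linear_combination h3
    rw [e]
    refine dvd_add (dvd_add (dvd_sub ?_ ?_) ?_) ?_
    · rw [dvd_neg]
      exact Dvd.dvd.mul_right hq1 _
    · exact Dvd.dvd.mul_left (hlp.trans hb1) _
    · exact Dvd.dvd.mul_left (hlp.trans ha1) _
    · exact Dvd.dvd.mul_right (Dvd.dvd.mul_left (hzk i) _) _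
  have hna : ¬ (p : ℤ) ∣ a ∧ ¬ (p : ℤ) ∣ b := by
    have key : (p : ℤ) ∣ a → (p : ℤ) ∣ b → False := by
      intro k1 k2
      have m1 : lm c ∣ A := by
        have := dvd_add ha2 (lm_dvd_of hp2 c a k1)
        rwa [sub_add_cancel] at this
      have m2 : lm c ∣ B := by
        have := dvd_add hb2 (lm_dvd_of hp2 c b k2)
        rwa [sub_add_cancel] at this
      rcases hAB with k | k
      · exact k m1
      · exact k m2
    constructor
    · intro k1
      apply key k1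
      have k3 : (p : ℤ) ∣ f.eval 1 ^ h * b := by
        have := dvd_add h5 (Dvd.dvd.mul_left k1 (n ^ h))
        rwa [sub_add_cancel] at this
      rcases hpz.dvd_or_dvd k3 with k4 | k4
      · exact absurd (hpz.dvd_of_dvd_pow k4) hu
      · exact k4
    · intro k1
      refine key ?_ k1
      have k3 : (p : ℤ) ∣ n ^ h * a := by
        have := dvd_sub (Dvd.dvd.mul_left k1 (f.eval 1 ^ h)) h5
        rwa [sub_sub_cancel] at this
      rcases hpz.dvd_or_dvd k3 with k4 | k4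
      · exact absurd (hpz.dvd_of_dvd_pow k4) hn
      · exact k4
  obtain ⟨hna, hnb⟩ := hna
  -- an inverse of b
  have hcop : IsCoprime b (p : ℤ) := ((Prime.coprime_iff_not_dvd hpz).2 hnb).symm
  obtain ⟨b', k', hb'⟩ := hcop
  -- the relation modulo p
  have h6 : ((p : ℕ) : 𝓞 C) ∣ q - ((n ^ h * a * b' : ℤ) : 𝓞 C) * zz c ^ i := by
    have hk : (b' : 𝓞 C) * (b : 𝓞 C) + (k' : 𝓞 C) * ((p : ℕ) : 𝓞 C) = 1 := by
      have := congrArg (Int.cast : ℤ → 𝓞 C) hb'
      push_cast at this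
      exact this
    have e : q - ((n ^ h * a * b' : ℤ) : 𝓞 C) * zz c ^ i =
        q * k' * ((p : ℕ) : 𝓞 C) - (b' : 𝓞 C) * q * (B ^ p - (b : 𝓞 C)) +
        (b' : 𝓞 C) * (n : 𝓞 C) ^ h * zz c ^ i * (A ^ p - (a : 𝓞 C)) := by
      push_cast
      linear_combination (-q) * hk + (b' : 𝓞 C) * h3
    rw [e]
    refine dvd_add (dvd_sub (dvd_mul_left _ _) ?_) ?_
    · exact Dvd.dvd.mul_left hb1 _
    · exact Dvd.dvd.mul_left ha1 _
  obtain ⟨y, hy⟩ := h6
  obtain ⟨H, hH⟩ := gen' c y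
  obtain ⟨r, hr⟩ : ∃ r : ℤ, r = n ^ h * a * b' := ⟨_, rfl⟩
  rw [← hr] at hy
  -- the integer polynomial
  obtain ⟨W, hW⟩ : ∃ W : ℤ[X], W = ∏ t ∈ hf p aa, f.comp (X ^ ex t) -
      Polynomial.C r * X ^ i - Polynomial.C (p : ℤ) * H := ⟨_, rfl⟩
  have hW0 : aeval (zz c) W = 0 := by
    rw [hW, map_sub, map_sub, map_mul, map_mul, map_pow, aeval_X, aeval_C, aeval_C, map_prod,
      ← hH]
    have e1 : ∏ t ∈ hf p aa, aeval (zz c) (f.comp (X ^ ex t)) = q := by
      rw [hq]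
      refine Finset.prod_congr rfl fun t _ => ?_
      rw [aeval_comp, map_pow, aeval_X]
    rw [e1]
    have e2 : (algebraMap ℤ (𝓞 C)) r = ((r : ℤ) : 𝓞 C) := rfl
    have e3 : (algebraMap ℤ (𝓞 C)) (p : ℤ) = ((p : ℕ) : 𝓞 C) := by
      rw [show (algebraMap ℤ (𝓞 C)) (p : ℤ) = (((p : ℤ) : ℤ) : 𝓞 C) from rfl, Int.cast_natCast]
    rw [e2, e3, hy]
    ring
  have hW1 : aeval c.z W = 0 := by
    have := congrArg (algebraMap (𝓞 C) C) hW0
    rw [map_aevZ, map_zero] at this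
    exact this
  have hdvd : cyclotomic p ℤ ∣ W := by
    rw [cyclotomic_eq_minpoly c.prim (Fact.out : p.Prime).pos]
    exact minpoly.isIntegrallyClosed_dvd (c.prim.isIntegral (Fact.out : p.Prime).pos) hW1
  have hdvd2 := Polynomial.map_dvd (Int.castRingHom (ZMod p)) hdvd
  rw [cyc_mod p] at hdvd2
  refine ⟨(r : ZMod p), ?_, ?_⟩
  · rw [Ne, ZMod.intCast_zmod_eq_zero_iff_dvd]
    intro hcon
    rw [hr] at hcon
    rcases hpz.dvd_or_dvd hcon with k | k
    · rcases hpz.dvd_or_dvd k with k | k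
      · exact hn (hpz.dvd_of_dvd_pow k)
      · exact hna k
    · have : (p : ℤ) ∣ 1 := by
        rw [← hb']
        exact dvd_add (Dvd.dvd.mul_right k _) (dvd_mul_left _ _)
      exact hpz.not_isUnit (isUnit_of_dvd_one this)
  · have e : W.map (Int.castRingHom (ZMod p)) = thPa p aa (f.map (Int.castRingHom (ZMod p))) -
        Polynomial.C (r : ZMod p) * X ^ i := by
      rw [hW, Polynomial.map_sub, Polynomial.map_sub, Polynomial.map_mul, Polynomial.map_mul,
        Polynomial.map_pow, Polynomial.map_X, Polynomial.map_C, Polynomial.map_C,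
        Polynomial.map_prod]
      have e1 : ∏ t ∈ hf p aa, (f.comp (X ^ ex t)).map (Int.castRingHom (ZMod p)) =
          thPa p aa (f.map (Int.castRingHom (ZMod p))) := by
        unfold thPa
        refine Finset.prod_congr rfl fun t _ => ?_
        rw [Polynomial.map_comp, Polynomial.map_pow, Polynomial.map_X]
        rfl
      have e2 : (Int.castRingHom (ZMod p)) (p : ℤ) = 0 := by
        rw [eq_intCast, Int.cast_natCast, CharP.cast_eq_zero]
      rw [e1, e2, Polynomial.C_0, zero_mul, sub_zero, eq_intCast]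
    rw [← e]
    exact hdvd2

end Pool.Agent.Y919.WQ
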